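import Pool.Agent.H595.Gel.Gel5

/-!
# Two irreducible polynomials in two variables, uniformly in the second number
-/

set_option autoImplicit false

namespace Pool.Agent.H595.DL

open Polynomial Pool.Agent.R523.Gel Pool.Agent.V11210.EP Pool.Agent.H595.Alg Pool.Agent.H595.Gel

theorem one_le_norm {z : ℝ} {M : ℕ} {κ c : ℝ} (hM : Pool.Agent.W472.AC.MeasP z (2 * M * M) κ c) (hM1 : 1 ≤ M)
    (R : ℤ[X][X]) (hR : Irreducible R) (hRm : ∀ j, (R.coeff j).natDegree ≤ M) (h0 : R.natDegree = 0) (t : ℂ) :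
    c ≤ (bh R : ℝ) ^ κ * ‖val z t R‖ := by
  obtain ⟨r, hr⟩ := natDegree_eq_zero.1 h0
  have hr0 : r ≠ 0 := by
    rintro rfl
    rw [C_0] at hr
    exact hR.ne_zero hr.symm
  have hcr : R.coeff 0 = r := by rw [← hr, coeff_C_zero]
  have h1 := hM r hr0 ((by rw [← hcr]; exact hRm 0 : r.natDegree ≤ M).trans (by nlinarith)) (bh R)
    (by exact_mod_cast one_le_bh hR.ne_zero) (fun i => by rw [← hcr]; exact coeff_le_bh R 0 i)
  have h2 : ‖val z t R‖ = |aeval z r| := by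
    rw [← hr, val_C, cast_aeval, Complex.norm_real, Real.norm_eq_abs]
  rw [h2]
  exact h1

/-- **Two irreducible polynomials.** -/
theorem two {z : ℝ} (hz : PolyM z) (M : ℕ) (hM1 : 1 ≤ M) : ∃ K : ℝ, 1 ≤ K ∧ ∀ (t : ℂ) (P Q : ℤ[X][X]),
    Irreducible P → Irreducible Q → ¬ Associated P Q → (∀ j, (P.coeff j).natDegree ≤ M) →
    (∀ j, (Q.coeff j).natDegree ≤ M) → P.natDegree ≤ M → Q.natDegree ≤ M → ∀ ε : ℝ, 0 < ε →
    ‖val z t P‖ ≤ ε → ‖val z t Q‖ ≤ ε → 1 ≤ (K * (1 + ‖t‖) * (bh P * bh Q)) ^ K * ε := by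
  obtain ⟨κ, c, hκ, hc, hM⟩ := hz (2 * M * M)
  obtain ⟨N, hN⟩ : ∃ N : ℕ, N = 2 * M * M := ⟨_, rfl⟩
  have hMN : M ≤ N := by
    rw [hN]
    nlinarith
  obtain ⟨C1, hC1, hcoef⟩ := coeff_le_values N
  obtain ⟨W, hW⟩ : ∃ W : ℝ, W = 1 + N + ‖(z : ℂ)‖ := ⟨_, rfl⟩
  have hz0 := norm_nonneg (z : ℂ)
  have hN0 : (0 : ℝ) ≤ N := Nat.cast_nonneg N
  have hMr : (1 : ℝ) ≤ M := by exact_mod_cast hM1
  have hW1 : 1 ≤ W := by rw [hW]; linarith
  obtain ⟨B, hBd⟩ : ∃ B : ℝ, B = (M + 1) * W ^ M := ⟨_, rfl⟩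
  have hWm : 1 ≤ W ^ M := one_le_pow₀ hW1
  have hB1 : 1 ≤ B := by
    rw [hBd]
    nlinarith
  have hfact : (1 : ℝ) ≤ ((M + M).factorial : ℝ) := by exact_mod_cast Nat.one_le_iff_ne_zero.2 (Nat.factorial_ne_zero _)
  have hBn : 1 ≤ B ^ (M + M) := one_le_pow₀ hB1
  obtain ⟨K0, hK0⟩ : ∃ K0 : ℝ, K0 = ((M : ℝ) + M) * ((M + M).factorial * B ^ (M + M)) := ⟨_, rfl⟩
  have hK01 : 1 ≤ K0 := by
    have e1 : (1 : ℝ) ≤ (M : ℝ) + M := by linarith
    have e2 : (1 : ℝ) ≤ (M + M).factorial * B ^ (M + M) := by nlinarith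
    rw [hK0]
    nlinarith
  obtain ⟨K1, hK1⟩ : ∃ K1 : ℝ, K1 = K0 * ((M + 1) * B) := ⟨_, rfl⟩
  have hK11 : 1 ≤ K1 := by
    have e1 : (1 : ℝ) ≤ (M + 1) * B := by nlinarith
    rw [hK1]
    nlinarith
  obtain ⟨A, hA⟩ : ∃ A : ℝ, A = c⁻¹ * ((C1 * K1) ^ κ * K0) := ⟨_, rfl⟩
  have hA0 : 0 < A := by rw [hA]; positivity
  obtain ⟨K, hK⟩ : ∃ K : ℝ, K = 1 + A + c⁻¹ + (M + M) + (M * κ + M) + κ := ⟨_, rfl⟩
  have hc0 : 0 < c⁻¹ := inv_pos.2 hc
  have hMκ : 0 ≤ (M : ℝ) * κ := by positivity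
  have hK1' : 1 ≤ K := by rw [hK]; linarith
  -- the general bound
  have gen : ∀ p q : ℕ, p ≤ M → q ≤ M → 0 < p + q → ∀ T' : ℝ, 1 ≤ T' → ∀ ε : ℝ, 0 ≤ ε → ∀ x : ℂ, ‖x‖ ≤ T' →
      ∀ f g : ℂ[X], f.natDegree ≤ p → g.natDegree ≤ q → ∀ F G : ℝ, 1 ≤ F → 1 ≤ G →
      (∀ i, ‖f.coeff i‖ ≤ B * F) → (∀ i, ‖g.coeff i‖ ≤ B * G) → ‖f.eval x‖ ≤ ε * F → ‖g.eval x‖ ≤ ε * G →
      ‖resultant f g p q‖ ≤ K0 * T' ^ (M + M) * ((F * G) ^ M * ε) := by
    intro p q hp hq hpq T' hT' ε hε x hx f g hf hg F G hF hG hfB hgB hfε hgε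
    have hF0 : 0 < F := by linarith
    have hG0 : 0 < G := by linarith
    refine (res_scaled p q hpq hB1 hT' f g hf hg hF0 hG0 hfB hgB hx hfε hgε).trans ?_
    have h1 : F ^ q ≤ F ^ M := pow_le_pow_right₀ hF hq
    have h2 : G ^ p ≤ G ^ M := pow_le_pow_right₀ hG hp
    have h3 : T' ^ (p + q) ≤ T' ^ (M + M) := pow_le_pow_right₀ hT' (by omega)
    have h4 : B ^ (p + q - 1) ≤ B ^ (M + M) := pow_le_pow_right₀ hB1 (by omega)
    have h5 : ((p + q).factorial : ℝ) ≤ ((M + M).factorial : ℝ) := by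
      exact_mod_cast Nat.factorial_le (by omega)
    have h6 : (p : ℝ) + q ≤ (M : ℝ) + M := by
      have hp' : (p : ℝ) ≤ M := by exact_mod_cast hp
      have hq' : (q : ℝ) ≤ M := by exact_mod_cast hq
      linarith
    rw [mul_pow, hK0]
    calc ((p : ℝ) + q) * T' ^ (p + q) * ((p + q).factorial * B ^ (p + q - 1)) * (F ^ q * G ^ p * ε) ≤
          ((M : ℝ) + M) * T' ^ (M + M) * ((M + M).factorial * B ^ (M + M)) * (F ^ M * G ^ M * ε) := by gcongr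
      _ = _ := by ring
  refine ⟨K, hK1', ?_⟩
  intro t P Q hP hQ hne hPm hQm hPn hQn ε hε hPε hQε
  obtain ⟨T, hT⟩ : ∃ T : ℝ, T = 1 + ‖t‖ := ⟨_, rfl⟩
  have ht0 := norm_nonneg t
  have hT1 : 1 ≤ T := by rw [hT]; linarith
  have hbP : (1 : ℝ) ≤ bh P := by exact_mod_cast one_le_bh hP.ne_zero
  have hbQ : (1 : ℝ) ≤ bh Q := by exact_mod_cast one_le_bh hQ.ne_zero
  obtain ⟨G, hG⟩ : ∃ G : ℝ, G = (bh P : ℝ) * bh Q := ⟨_, rfl⟩
  have hG1 : 1 ≤ G := by rw [hG]; nlinarith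
  have hG0 : 0 < G := by linarith
  have hvP := norm_nonneg (val z t P)
  have hvQ := norm_nonneg (val z t Q)
  rw [← hG, ← hT]
  have hKT : (K * T * G) ^ K = K ^ K * T ^ K * G ^ K := by
    rw [Real.mul_rpow (by positivity) (by positivity), Real.mul_rpow (by positivity) (by positivity)]
  have hKK : K ≤ K ^ K := by
    nth_rewrite 1 [← Real.rpow_one K]
    exact Real.rpow_le_rpow_of_exponent_le hK1' hK1'
  have hTK : 1 ≤ T ^ K := Real.one_le_rpow hT1 (by linarith)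
  have hGK : 1 ≤ G ^ K := Real.one_le_rpow hG1 (by linarith)
  -- a general estimate
  have fin : ∀ a x y : ℝ, 0 < a → a ≤ K → x ≤ K → y ≤ K → 1 ≤ a * T ^ x * G ^ y * ε →
      1 ≤ (K * T * G) ^ K * ε := by
    intro a x y ha haK hx hy h
    refine h.trans ?_
    rw [hKT]
    have h1 : T ^ x ≤ T ^ K := Real.rpow_le_rpow_of_exponent_le hT1 hx
    have h2 : G ^ y ≤ G ^ K := Real.rpow_le_rpow_of_exponent_le hG1 hy
    have h3 : a ≤ K ^ K := haK.trans hKK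
    gcongr
  -- polynomials in `z` only
  have const : ∀ R : ℤ[X][X], Irreducible R → (∀ j, (R.coeff j).natDegree ≤ M) → R.natDegree = 0 →
      (bh R : ℝ) ≤ G → ‖val z t R‖ ≤ ε → 1 ≤ (K * T * G) ^ K * ε := by
    intro R hR hRm h0 hRG hRε
    have h1 := one_le_norm hM hM1 R hR hRm h0 t
    have hbR : (1 : ℝ) ≤ bh R := by exact_mod_cast one_le_bh hR.ne_zero
    have h2 : (bh R : ℝ) ^ κ ≤ G ^ κ := Real.rpow_le_rpow (by linarith) hRG hκ
    have h3 : c ≤ G ^ κ * ε := h1.trans (mul_le_mul h2 hRε (norm_nonneg _) (by positivity))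
    apply fin c⁻¹ 0 κ hc0 (by rw [hK]; linarith) (by linarith) (by rw [hK]; linarith)
    rw [Real.rpow_zero, mul_one, mul_assoc]
    rw [← inv_mul_cancel₀ hc.ne']
    exact mul_le_mul_of_nonneg_left h3 hc0.le
  by_cases hP0 : P.natDegree = 0
  · exact const P hP hPm hP0 (by rw [hG]; nlinarith) hPε
  by_cases hQ0 : Q.natDegree = 0
  · exact const Q hQ hQm hQ0 (by rw [hG]; nlinarith) hQε
  -- the resultant
  obtain ⟨R, hR⟩ : ∃ R : ℤ[X], R = resultant P Q P.natDegree Q.natDegree := ⟨_, rfl⟩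
  have hndvd : ¬ Q ∣ P := by
    intro hd
    have h1 : Associated Q P := (hQ.dvd_irreducible_iff_associated hP).1 hd
    exact hne h1.symm
  have hR0 : R ≠ 0 := by
    rw [hR]
    exact res_ne P Q hQ (Nat.pos_of_ne_zero hQ0) hndvd
  have hRd : R.natDegree ≤ N := by
    rw [hR, resultant]
    refine (natDegree_det_le' _ M ?_).trans ?_
    · intro i j
      unfold sylvester
      simp only [Matrix.of_apply]
      refine Fin.addCases (fun j1 => ?_) (fun j1 => ?_) j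
      · rw [Fin.addCases_left]
        split_ifs
        · exact hQm _
        · simp
      · rw [Fin.addCases_right]
        split_ifs
        · exact hPm _
        · simp
    · rw [hN]
      apply Nat.mul_le_mul_right
      omega
  have hval : ∀ w : ℂ, aeval w R = resultant (P.map (ez w)) (Q.map (ez w)) P.natDegree Q.natDegree := by
    intro w
    rw [hR, resultant_map_map]
    rfl
  have hmapn : ∀ (w : ℂ) (U : ℤ[X][X]), (U.map (ez w)).natDegree ≤ U.natDegree := fun w U => natDegree_map_le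
  have hpq : 0 < P.natDegree + Q.natDegree := by omega
  have hvals : ∀ k ≤ N, ‖aeval (k : ℂ) R‖ ≤ K1 * G ^ M := by
    intro k hk
    have hkW : ‖(k : ℂ)‖ ≤ W := by
      rw [Complex.norm_natCast, hW]
      have : (k : ℝ) ≤ N := by exact_mod_cast hk
      linarith
    have cP := fun i => coeff_map_le hPm hW1 hkW i
    have cQ := fun i => coeff_map_le hQm hW1 hkW i
    rw [← hBd] at cP cQ
    have h1 := gen P.natDegree Q.natDegree hPn hQn hpq 1 le_rfl ((M + 1) * B) (by positivity) 1 (by simp)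
      (P.map (ez k)) (Q.map (ez k)) (hmapn _ _) (hmapn _ _) (bh P) (bh Q) hbP hbQ cP cQ
      ((eval_one_le ((hmapn _ _).trans hPn) cP).trans (le_of_eq (by ring)))
      ((eval_one_le ((hmapn _ _).trans hQn) cQ).trans (le_of_eq (by ring)))
    rw [hval]
    rw [← hG, one_pow, mul_one] at h1
    refine h1.trans (le_of_eq ?_)
    rw [hK1]
    ring
  have hcf := hcoef R hRd (K1 * G ^ M) (by positivity) hvals
  have hGn : 1 ≤ G ^ M := one_le_pow₀ hG1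
  have hKG : 1 ≤ K1 * G ^ M := by nlinarith
  have hm := hM R hR0 (by rw [← hN]; exact hRd) (C1 * (K1 * G ^ M)) (by nlinarith) hcf
  -- the value at `z`
  have hzW : ‖(z : ℂ)‖ ≤ W := by rw [hW]; linarith
  have cP := fun i => coeff_map_le hPm hW1 hzW i
  have cQ := fun i => coeff_map_le hQm hW1 hzW i
  rw [← hBd] at cP cQ
  have h2 := gen P.natDegree Q.natDegree hPn hQn hpq T hT1 ε hε.le t (by rw [hT]; linarith)
    (P.map (ez z)) (Q.map (ez z)) (hmapn _ _) (hmapn _ _) (bh P) (bh Q) hbP hbQ cP cQ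
    (by rw [← val_eq]; nlinarith) (by rw [← val_eq]; nlinarith)
  rw [← hval, ← hG, cast_aeval, Complex.norm_real, Real.norm_eq_abs] at h2
  have h3 : c ≤ (C1 * (K1 * G ^ M)) ^ κ * (K0 * T ^ (M + M) * (G ^ M * ε)) :=
    hm.trans (mul_le_mul_of_nonneg_left h2 (by positivity))
  apply fin A (M + M : ℕ) (M * κ + M) hA0 (by rw [hK]; linarith) (by rw [hK]; push_cast; linarith) (by rw [hK]; linarith)
  have e1 : (C1 * (K1 * G ^ M)) ^ κ = (C1 * K1) ^ κ * G ^ ((M : ℝ) * κ) := by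
    rw [← mul_assoc C1, Real.mul_rpow (by positivity) (by positivity), ← Real.rpow_natCast G M, ← Real.rpow_mul hG0.le]
  have e2 : G ^ ((M : ℝ) * κ + M) = G ^ ((M : ℝ) * κ) * G ^ M := by
    rw [Real.rpow_add hG0, Real.rpow_natCast]
  rw [e1] at h3
  rw [e2, Real.rpow_natCast, hA, ← inv_mul_cancel₀ hc.ne']
  calc c⁻¹ * c ≤ c⁻¹ * ((C1 * K1) ^ κ * G ^ ((M : ℝ) * κ) * (K0 * T ^ (M + M) * (G ^ M * ε))) :=
        mul_le_mul_of_nonneg_left h3 hc0.le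
    _ = _ := by ring

end Pool.Agent.H595.DL
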