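import Pool.Agent.H595.DL.DL1
import Pool.Agent.H595.GT.GT2

/-!
# The density on the double logarithmic scale
-/

set_option autoImplicit false

namespace Pool.Agent.H595.DL

open Polynomial MeasureTheory Filter Topology Set Pool.Agent.H595.Dens Pool.Agent.R523.Gel Pool.Agent.H595.Alg
  Pool.Agent.H595.Gel

open Classical in
/-- a slowly growing bound for the degrees -/
theorem exists_bound (g : ℕ → ℝ) : ∃ N : ℝ → ℕ, Monotone N ∧ Tendsto N atTop atTop ∧
    (∀ T, 1 ≤ T → (N T : ℝ) ≤ Real.log T) ∧ ∀ T, 1 ≤ T → N T ≠ 0 → g (N T) ≤ Real.log T := by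
  obtain ⟨G, hG⟩ : ∃ G : ℕ → ℝ, G = fun M : ℕ => (M : ℝ) + |g M| := ⟨_, rfl⟩
  obtain ⟨N, hN⟩ : ∃ N : ℝ → ℕ, N = fun T => Nat.findGreatest (fun M => G M ≤ Real.log (max 1 T)) ⌊max 1 T⌋₊ :=
    ⟨_, rfl⟩
  have hspec : ∀ T, 1 ≤ T → N T ≠ 0 → G (N T) ≤ Real.log T := by
    intro T hT h0
    have h1 := Nat.findGreatest_of_ne_zero (P := fun M => G M ≤ Real.log (max 1 T)) (n := ⌊max 1 T⌋₊) (m := N T)
      (by rw [hN]) h0
    rwa [max_eq_right hT] at h1
  refine ⟨N, ?_, ?_, ?_, ?_⟩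
  · intro T T' hTT
    rw [hN]
    have h1 : max 1 T ≤ max 1 T' := max_le_max_left _ hTT
    refine Nat.findGreatest_mono (fun M hM => ?_) (Nat.floor_le_floor h1)
    exact hM.trans (Real.log_le_log (lt_of_lt_of_le one_pos (le_max_left _ _)) h1)
  · rw [tendsto_atTop]
    intro M
    filter_upwards [eventually_ge_atTop (max (M : ℝ) (Real.exp (G M)))] with T hT
    have h1 : (M : ℝ) ≤ max 1 T := ((le_max_left _ _).trans hT).trans (le_max_right _ _)
    have h2 : Real.exp (G M) ≤ max 1 T := ((le_max_right _ _).trans hT).trans (le_max_right _ _)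
    rw [hN]
    refine Nat.le_findGreatest (Nat.le_floor h1) ?_
    rw [Real.le_log_iff_exp_le (lt_of_lt_of_le one_pos (le_max_left _ _))]
    exact h2
  · intro T hT
    by_cases h0 : N T = 0
    · rw [h0, Nat.cast_zero]
      exact Real.log_nonneg hT
    · have h1 := hspec T hT h0
      rw [hG] at h1
      simp only at h1
      have := abs_nonneg (g (N T))
      linarith
  · intro T hT h0
    have h1 := hspec T hT h0
    rw [hG] at h1
    simp only at h1
    have h2 := le_abs_self (g (N T))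
    have h3 : (0 : ℝ) ≤ N T := Nat.cast_nonneg _
    linarith

/-- a near relation of size `T` -/
def NearRel (N : ℝ → ℕ) (z t : ℂ) (w T : ℝ) : Prop := ∃ P : ℤ[X][X], P ≠ 0 ∧
  (∀ j, (P.coeff j).natDegree ≤ N T) ∧ P.natDegree ≤ N T ∧ (∀ j i, |((P.coeff j).coeff i : ℝ)| ≤ Real.exp T) ∧
  ‖val z t P‖ ≤ Real.exp (-T ^ w)

/-- the logarithms of the sizes -/
def dScales (N : ℝ → ℕ) (z t : ℂ) (w : ℝ) : Set ℝ := {y | NearRel N z t w (Real.exp y)}

/-- irreducible polynomials with sizes -/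
def IV (N : ℝ → ℕ) : Type := {v : ℤ[X][X] × ℕ // Irreducible v.1 ∧ (∀ j, (v.1.coeff j).natDegree ≤ N v.2) ∧
  v.1.natDegree ≤ N v.2 ∧ (∀ j i, |((v.1.coeff j).coeff i : ℝ)| ≤ Real.exp v.2) ∧ 1 ≤ v.2}

noncomputable def iX {N : ℝ → ℕ} (v : IV N) : ℝ := Real.log v.1.2

noncomputable def iL {N : ℝ → ℕ} (z t : ℂ) (v : IV N) : ℝ := Real.log (max 1 (-Real.log ‖val z t v.1.1‖))

theorem iX_nonneg {N : ℝ → ℕ} (v : IV N) : 0 ≤ iX v := Real.log_nonneg (by exact_mod_cast v.2.2.2.2.2)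

theorem iL_nonneg {N : ℝ → ℕ} (z t : ℂ) (v : IV N) : 0 ≤ iL z t v := Real.log_nonneg (le_max_left _ _)

theorem finite_iX {N : ℝ → ℕ} (B : ℝ) : {v : IV N | iX v ≤ B}.Finite := by
  obtain ⟨n, hn⟩ := exists_nat_ge (Real.exp B)
  have h1 : (⋃ k ∈ Finset.range (n + 1), (fun P : BP (N k) (N k) => ((P.1, k) : ℤ[X][X] × ℕ)) ''
      {P | gX P ≤ k}).Finite := by
    refine Set.Finite.biUnion (Finset.finite_toSet _) (fun k _ => ?_)
    exact (finite_gX _).image _
  refine Set.Finite.of_finite_image (f := fun v : IV N => v.1) (h1.subset ?_) (fun A _ B _ h => Subtype.ext h)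
  rintro _ ⟨v, hv, rfl⟩
  have hv1 : (1 : ℝ) ≤ v.1.2 := by exact_mod_cast v.2.2.2.2.2
  have h2 : (v.1.2 : ℝ) ≤ n := by
    refine le_trans ?_ hn
    rw [← Real.exp_log (show (0 : ℝ) < v.1.2 by linarith)]
    exact Real.exp_le_exp.2 hv
  have h3 : v.1.2 ≤ n := by exact_mod_cast h2
  rw [Set.mem_iUnion₂]
  refine ⟨v.1.2, Finset.mem_range.2 (by omega), ⟨v.1.1, v.2.1, v.2.2.1, v.2.2.2.1⟩, ?_, rfl⟩
  show Real.log (bh v.1.1) ≤ v.1.2
  rw [Real.log_le_iff_le_exp (by exact_mod_cast one_le_bh v.2.1.ne_zero)]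
  exact bh_le (Real.exp_pos _).le v.2.2.2.2.1

theorem val_assoc {z t : ℂ} {P Q : ℤ[X][X]} (h : Associated P Q) : ‖val z t P‖ = ‖val z t Q‖ := by
  obtain ⟨u, hu⟩ := h
  obtain ⟨r, hr, hr'⟩ := Polynomial.isUnit_iff.1 u.isUnit
  obtain ⟨s, hs, hs'⟩ := Polynomial.isUnit_iff.1 hr
  rw [← hu, ← hr', ← hs', val_mul, val_C, aeval_C, norm_mul]
  rcases Int.isUnit_iff.1 hs with h | h
  · rw [h]
    simp
  · rw [h]
    simp

theorem bound {z : ℝ} {K : ℕ → ℝ} (hK1 : ∀ M, 1 ≤ K M)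
    (hK : ∀ M : ℕ, 1 ≤ M → ∀ (t : ℂ) (P Q : ℤ[X][X]),
      Irreducible P → Irreducible Q → ¬ Associated P Q → (∀ j, (P.coeff j).natDegree ≤ M) →
      (∀ j, (Q.coeff j).natDegree ≤ M) → P.natDegree ≤ M → Q.natDegree ≤ M → ∀ ε : ℝ, 0 < ε →
      ‖val z t P‖ ≤ ε → ‖val z t Q‖ ≤ ε → 1 ≤ (K M * (1 + ‖t‖) * (bh P * bh Q)) ^ K M * ε)
    {N : ℝ → ℕ} (hNm : Monotone N) (hNK : ∀ T, 1 ≤ T → N T ≠ 0 → K (N T) ≤ Real.log T) {t : ℂ}
    (ht : ∀ m n, NoRel m n z t) {ε : ℝ} (hε : 0 < ε) : ∃ C : ℝ, ∀ u v : IV N, iX u < iX v → iL z t u < iL z t v →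
    iL z t u ≤ (1 + ε) * iX v + (0 + ε) * iX u + C := by
  obtain ⟨τ, hτ⟩ : ∃ τ : ℝ, τ = Real.log (1 + ‖t‖) := ⟨_, rfl⟩
  have hn0 := norm_nonneg t
  have hτ0 : 0 ≤ τ := by rw [hτ]; exact Real.log_nonneg (by linarith)
  obtain ⟨S, hS⟩ : ∃ S : ℝ, S = K 1 + τ + 3 := ⟨_, rfl⟩
  have hK11 := hK1 1
  have hS1 : 1 ≤ S := by rw [hS]; linarith
  refine ⟨2 * Real.log S + (ε + |Real.log ε|), fun u v h1 h2 => ?_⟩
  have hXu := iX_nonneg u
  have hXv := iX_nonneg v
  have hlS : 0 ≤ Real.log S := Real.log_nonneg hS1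
  rcases le_or_gt (-Real.log ‖val z t u.1.1‖) 1 with h3 | h3
  · have h4 : iL z t u = 0 := by rw [iL, max_eq_left h3, Real.log_one]
    rw [h4]
    have := abs_nonneg (Real.log ε)
    positivity
  have hev : iL z t u = Real.log (-Real.log ‖val z t u.1.1‖) := by rw [iL, max_eq_right h3.le]
  have h4 : -Real.log ‖val z t u.1.1‖ < -Real.log ‖val z t v.1.1‖ := by
    by_contra hcon
    push Not at hcon
    have h5 : iL z t v ≤ iL z t u := by
      rw [hev, iL]
      exact Real.log_le_log (lt_of_lt_of_le one_pos (le_max_left _ _)) (max_le h3.le hcon)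
    linarith
  have hu0 : 0 < ‖val z t u.1.1‖ := norm_pos_iff.2 (ht _ _ u.1.1 u.2.1.ne_zero u.2.2.1 u.2.2.2.1)
  have hv0 : 0 < ‖val z t v.1.1‖ := norm_pos_iff.2 (ht _ _ v.1.1 v.2.1.ne_zero v.2.2.1 v.2.2.2.1)
  have h5 : ‖val z t v.1.1‖ ≤ ‖val z t u.1.1‖ := by
    rw [← Real.log_le_log_iff hv0 hu0]
    linarith
  have hass : ¬ Associated u.1.1 v.1.1 := by
    intro h
    rw [val_assoc (z := z) (t := t) h] at h4
    exact lt_irrefl _ h4
  obtain ⟨k, hk⟩ : ∃ k : ℕ, k = u.1.2 := ⟨_, rfl⟩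
  obtain ⟨l, hl⟩ : ∃ l : ℕ, l = v.1.2 := ⟨_, rfl⟩
  have hk1 : (1 : ℝ) ≤ k := by rw [hk]; exact_mod_cast u.2.2.2.2.2
  have hl1 : (1 : ℝ) ≤ l := by rw [hl]; exact_mod_cast v.2.2.2.2.2
  have hkl : (k : ℝ) ≤ l := by
    rw [iX, iX, ← hk, ← hl] at h1
    exact ((Real.log_lt_log_iff (by linarith) (by linarith)).1 h1).le
  have hNkl : N k ≤ N l := hNm hkl
  obtain ⟨M, hM⟩ : ∃ M : ℕ, M = max (N l) 1 := ⟨_, rfl⟩
  have hNM : N l ≤ M := by rw [hM]; exact le_max_left _ _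
  have hM1 : 1 ≤ M := by rw [hM]; exact le_max_right _ _
  have hMl : K M ≤ K 1 + Real.log l := by
    have hll := Real.log_nonneg hl1
    by_cases h0 : N l = 0
    · rw [hM, h0]
      simp only [Nat.zero_le, sup_of_le_right]
      linarith
    · have h6 := hNK l hl1 h0
      rw [hM, max_eq_left (by omega)]
      linarith
  have h6 := hK M hM1 t u.1.1 v.1.1 u.2.1 v.2.1 hass (fun j => (u.2.2.1 j).trans (by rw [← hk]; omega))
    (fun j => (v.2.2.1 j).trans (by rw [← hl]; omega)) (u.2.2.2.1.trans (by rw [← hk]; omega))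
    (v.2.2.2.1.trans (by rw [← hl]; omega)) _ hu0 le_rfl h5
  have hbu : (1 : ℝ) ≤ bh u.1.1 := by exact_mod_cast one_le_bh u.2.1.ne_zero
  have hbv : (1 : ℝ) ≤ bh v.1.1 := by exact_mod_cast one_le_bh v.2.1.ne_zero
  have hbu2 : Real.log (bh u.1.1) ≤ k := by
    rw [Real.log_le_iff_le_exp (by linarith), hk]
    exact bh_le (Real.exp_pos _).le u.2.2.2.2.1
  have hbv2 : Real.log (bh v.1.1) ≤ l := by
    rw [Real.log_le_iff_le_exp (by linarith), hl]
    exact bh_le (Real.exp_pos _).le v.2.2.2.2.1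
  have hKM := hK1 M
  have h7 := Real.log_le_log one_pos h6
  rw [Real.log_one, Real.log_mul (by positivity) hu0.ne', Real.log_rpow (by positivity),
    Real.log_mul (by positivity) (by positivity), Real.log_mul (by positivity) (by positivity),
    Real.log_mul (by positivity) (by positivity), ← hτ] at h7
  have h8 : Real.log (K M) ≤ K M := by
    have := Real.log_le_sub_one_of_pos (show 0 < K M by linarith)
    linarith
  have hll0 : 0 ≤ Real.log l := Real.log_nonneg hl1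
  have hlll : Real.log l ≤ l := by
    have := Real.log_le_sub_one_of_pos (show (0 : ℝ) < l by linarith)
    linarith
  have h9 : -Real.log ‖val z t u.1.1‖ ≤ K M * (K M + τ + 2 * l) := by
    have h10 : K M * (Real.log (K M) + τ + (Real.log (bh u.1.1) + Real.log (bh v.1.1))) ≤ K M * (K M + τ + 2 * l) := by
      apply mul_le_mul_of_nonneg_left _ (by linarith)
      linarith
    linarith
  have h10 : K M ≤ S * (1 + Real.log l) := by
    refine hMl.trans ?_
    have : K 1 ≤ S := by rw [hS]; linarith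
    nlinarith
  have h11 : K M + τ + 2 * l ≤ S * l := by
    have h12 : K M + τ + 2 * l ≤ K 1 + τ + 3 * l := by linarith
    refine h12.trans ?_
    rw [hS]
    have : 0 ≤ K 1 + τ := by linarith
    nlinarith
  have h12 : -Real.log ‖val z t u.1.1‖ ≤ S * (1 + Real.log l) * (S * l) := by
    refine h9.trans (mul_le_mul h10 h11 (by linarith) (by positivity))
  have h13 := Real.log_le_log (by linarith) h12
  rw [← hev, Real.log_mul (by positivity) (by positivity), Real.log_mul (by positivity) (by positivity),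
    Real.log_mul (by positivity) (by positivity)] at h13
  have h14 : Real.log (1 + Real.log l) ≤ ε * (1 + Real.log l) - Real.log ε := by
    have h15 := Real.log_le_sub_one_of_pos (mul_pos hε (show 0 < 1 + Real.log l by linarith))
    rw [Real.log_mul hε.ne' (by linarith)] at h15
    linarith
  have h15 : iX v = Real.log l := by rw [iX, hl]
  have h16 := neg_abs_le (Real.log ε)
  have h17 : 0 ≤ ε * iX u := by positivity
  rw [h15]
  linarith

end Pool.Agent.H595.DL
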