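import Pool.Agent.H595.DL.DL2

/-!
# The upper bound
-/

set_option autoImplicit false

namespace Pool.Agent.H595.DL

open Polynomial MeasureTheory Filter Topology Set Pool.Agent.H595.Dens Pool.Agent.R523.Gel Pool.Agent.H595.Alg
  Pool.Agent.H595.Gel

/-- the constants for the heights of divisors -/
theorem height_const {N : ℕ} {y : ℝ} (hy : 16 ≤ y) (hN : (N : ℝ) ≤ y) :
    (2 : ℝ) ^ (N + (N + 1) * N) * ((N + (N + 1) * N + 1 : ℕ) : ℝ) ≤ Real.exp (Real.exp y) := by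
  obtain ⟨a, ha⟩ : ∃ a : ℕ, a = N + (N + 1) * N := ⟨_, rfl⟩
  rw [← ha]
  have hN0 : (0 : ℝ) ≤ N := Nat.cast_nonneg N
  have h1 : ((a + 1 : ℕ) : ℝ) ≤ 2 ^ a := by exact_mod_cast Nat.lt_two_pow_self (n := a)
  have h2 : (2 : ℝ) ^ a * ((a + 1 : ℕ) : ℝ) ≤ 2 ^ a * 2 ^ a := mul_le_mul_of_nonneg_left h1 (by positivity)
  refine h2.trans ?_
  have h3 : (2 : ℝ) ≤ Real.exp 1 := by
    have := Real.add_one_le_exp (1 : ℝ)
    linarith
  have h4 : (2 : ℝ) ^ a ≤ Real.exp a := by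
    calc (2 : ℝ) ^ a ≤ Real.exp 1 ^ a := pow_le_pow_left₀ (by norm_num) h3 a
      _ = Real.exp a := by rw [← Real.exp_nat_mul, mul_one]
  have h5 : (2 : ℝ) ^ a * 2 ^ a ≤ Real.exp (2 * a) := by
    calc (2 : ℝ) ^ a * 2 ^ a ≤ Real.exp a * Real.exp a := mul_le_mul h4 h4 (by positivity) (Real.exp_pos _).le
      _ = Real.exp (2 * a) := by rw [← Real.exp_add]; ring_nf
  refine h5.trans (Real.exp_le_exp.2 ?_)
  have h6 : (a : ℝ) ≤ (y + 1) ^ 2 := by
    rw [ha]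
    push_cast
    nlinarith
  have h7 : 2 * (y + 1) ≤ Real.exp (y / 2) := by
    have := Real.quadratic_le_exp_of_nonneg (show 0 ≤ y / 2 by linarith)
    nlinarith
  have h8 : Real.exp y = Real.exp (y / 2) ^ 2 := by
    rw [← Real.exp_nat_mul]
    congr 1
    push_cast
    ring
  have h9 : (2 * (y + 1)) ^ 2 ≤ Real.exp (y / 2) ^ 2 := pow_le_pow_left₀ (by linarith) h7 2
  rw [h8]
  nlinarith

theorem to_irr {N : ℝ → ℕ} (hNm : Monotone N) (hNl : ∀ T, 1 ≤ T → (N T : ℝ) ≤ Real.log T) {z t : ℂ}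
    (ht : ∀ m n, NoRel m n z t) {w w' : ℝ} (hw' : 0 < w') (hw : w' < w) :
    lowerDensity (dScales N z t w) ≤ lowerDensity (goodScales iX (iL (N := N) z t) w') := by
  have hl3 : 0 ≤ Real.log 3 := Real.log_nonneg (by norm_num)
  obtain ⟨w₁, hw₁⟩ : ∃ w₁ : ℝ, w₁ = (w + w') / 2 := ⟨_, rfl⟩
  obtain ⟨δ, hδ⟩ : ∃ δ : ℝ, δ = (w - w') / 2 := ⟨_, rfl⟩
  have hδ0 : 0 < δ := by rw [hδ]; linarith
  have h1δ : w₁ = w' + δ := by rw [hw₁, hδ]; ring
  have h2δ : w = w₁ + δ := by rw [hw₁, hδ]; ring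
  refine lowerDensity_shift (s := Real.log 3) (B := max 16 (max (w' * Real.log 3 / δ) (8 / δ ^ 2))) hl3 ?_
  rintro y ⟨P, hP, hm, hn, h1, h2⟩ hy
  have hy16 : 16 ≤ y := (le_max_left _ _).trans hy
  have hy1 : w' * Real.log 3 / δ ≤ y := ((le_max_left _ _).trans (le_max_right _ _)).trans hy
  have hy2 : 8 / δ ^ 2 ≤ y := ((le_max_right _ _).trans (le_max_right _ _)).trans hy
  rw [div_le_iff₀ hδ0] at hy1
  rw [div_le_iff₀ (by positivity)] at hy2
  obtain ⟨T, hT⟩ : ∃ T : ℝ, T = Real.exp y := ⟨_, rfl⟩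
  have hT1 : 1 ≤ T := by rw [hT]; exact Real.one_le_exp (by linarith)
  have hT0 : 0 < T := by linarith
  have hTy : Real.log T = y := by rw [hT, Real.log_exp]
  rw [← hT] at hm hn h1 h2
  have hNT := hNl T hT1
  rw [hTy] at hNT
  obtain ⟨r, hr⟩ : ∃ r : ℝ, r = Real.exp (-T ^ w₁) := ⟨_, rfl⟩
  have hTw : 0 < T ^ w₁ := Real.rpow_pos_of_pos hT0 _
  have hr0 : 0 < r := by rw [hr]; exact Real.exp_pos _
  have hr1 : r ≤ 1 := by
    rw [hr, Real.exp_le_one_iff]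
    linarith
  obtain ⟨Q, hQ, hQP, h3⟩ := exists_factor (z := z) (t := t) hP hm hn hr0 hr1 (by
    refine lt_of_le_of_lt h2 ?_
    rw [hr, ← Real.exp_nat_mul]
    apply Real.exp_lt_exp.2
    have e1 : T ^ w = T ^ w₁ * T ^ δ := by rw [h2δ, Real.rpow_add hT0]
    have e2 : 2 * y < T ^ δ := by
      rw [Real.rpow_def_of_pos hT0, hTy]
      have h4 := Real.quadratic_le_exp_of_nonneg (show 0 ≤ y * δ by positivity)
      nlinarith
    have e3 : ((N T + N T : ℕ) : ℝ) < T ^ δ := by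
      push_cast
      linarith
    have e4 : T ^ w₁ * ((N T + N T : ℕ) : ℝ) < T ^ w₁ * T ^ δ := mul_lt_mul_of_pos_left e3 hTw
    rw [e1]
    linarith)
  obtain ⟨h5, h6⟩ := dvd_degrees hP hQP hm hn
  obtain ⟨k, hk⟩ : ∃ k : ℕ, k = ⌈2 * T⌉₊ := ⟨_, rfl⟩
  have hk1 : 2 * T ≤ k := by rw [hk]; exact Nat.le_ceil _
  have hk2 : (k : ℝ) < 2 * T + 1 := by rw [hk]; exact Nat.ceil_lt_add_one (by linarith)
  have hk3 : (1 : ℝ) ≤ k := by linarith
  have hNk : N T ≤ N k := hNm (by linarith)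
  have hcoef : ∀ j i, |((Q.coeff j).coeff i : ℝ)| ≤ Real.exp k := by
    intro j i
    refine (dvd_height hP hQP hm hn h1 j i).trans ?_
    have h7 := height_const hy16 hNT
    rw [← hT] at h7
    calc _ ≤ Real.exp T * Real.exp T := mul_le_mul_of_nonneg_right h7 (Real.exp_pos _).le
      _ = Real.exp (2 * T) := by rw [← Real.exp_add]; ring_nf
      _ ≤ _ := Real.exp_le_exp.2 hk1
  refine ⟨⟨(Q, k), hQ, fun j => (h5 j).trans hNk, h6.trans hNk, hcoef, by exact_mod_cast hk3⟩, ?_, ?_⟩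
  · show Real.log k ≤ y + Real.log 3
    have h7 : (k : ℝ) ≤ 3 * T := by linarith
    have h8 := Real.log_le_log (by linarith) h7
    rw [Real.log_mul (by norm_num) hT0.ne', hTy] at h8
    linarith
  · show w' * (y + Real.log 3) ≤ Real.log (max 1 (-Real.log ‖val z t Q‖))
    have h7 := Real.log_lt_log (norm_pos_iff.2 (ht _ _ Q hQ.ne_zero h5 h6)) h3
    rw [hr, Real.log_exp] at h7
    have h8 : T ^ w₁ ≤ -Real.log ‖val z t Q‖ := by linarith
    have h9 := Real.log_le_log hTw (h8.trans (le_max_right 1 _))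
    rw [Real.log_rpow hT0, hTy] at h9
    refine le_trans ?_ h9
    rw [h1δ]
    linarith

/-- **The function which bounds the degrees.** -/
theorem exists_N {z : ℝ} (hz : PolyM z) : ∃ N : ℝ → ℕ, Monotone N ∧ Tendsto N atTop atTop ∧
    ∀ t : ℂ, (∀ m n, NoRel m n z t) → ∀ w : ℝ, 1 < w → lowerDensity (dScales N z t w) ≤ 1 / w := by
  have h0 : ∀ M : ℕ, ∃ K : ℝ, 1 ≤ K ∧ (1 ≤ M → ∀ (t : ℂ) (P Q : ℤ[X][X]),
    Irreducible P → Irreducible Q → ¬ Associated P Q → (∀ j, (P.coeff j).natDegree ≤ M) →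
    (∀ j, (Q.coeff j).natDegree ≤ M) → P.natDegree ≤ M → Q.natDegree ≤ M → ∀ ε : ℝ, 0 < ε →
    ‖val z t P‖ ≤ ε → ‖val z t Q‖ ≤ ε → 1 ≤ (K * (1 + ‖t‖) * (bh P * bh Q)) ^ K * ε) := by
    intro M
    by_cases hM : 1 ≤ M
    · obtain ⟨K, hK, h⟩ := two hz M hM
      exact ⟨K, hK, fun _ => h⟩
    · exact ⟨1, le_rfl, fun h => absurd h hM⟩
  choose K hK1 hK using h0
  obtain ⟨N, hN1, hN2, hN3, hN4⟩ := exists_bound K
  refine ⟨N, hN1, hN2, fun t ht w hw => ?_⟩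
  have main : ∀ w', 1 < w' → w' < w → lowerDensity (dScales N z t w) * w' ≤ 1 := by
    intro w' h1 h2
    have h3 := to_irr hN1 hN3 ht (show 0 < w' by linarith) h2
    have h4 := dens_simple (X := iX) (ℓ := iL (N := N) z t) (w := w') (A := 1) (B := 0) (by linarith) zero_le_one
      (by linarith) finite_iX (fun ε hε => by
        obtain ⟨C, hC⟩ := bound hK1 hK hN1 hN4 ht hε
        exact ⟨C, fun u v h1 h2 _ _ => hC u v h1 h2⟩)
    have h5 := h3.trans h4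
    rwa [le_div_iff₀ (by linarith)] at h5
  rw [le_div_iff₀ (by linarith)]
  by_contra hcon
  push Not at hcon
  have h6 := lowerDensity_nonneg (dScales N z t w)
  have h7 : 0 < lowerDensity (dScales N z t w) := by
    rcases h6.eq_or_lt with h8 | h8
    · rw [← h8, zero_mul] at hcon
      linarith
    · exact h8
  obtain ⟨w', h8, h9⟩ := exists_between (show max 1 (1 / lowerDensity (dScales N z t w)) < w by
      rw [max_lt_iff]
      exact ⟨hw, by rw [div_lt_iff₀' h7]; exact hcon⟩)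
  rw [max_lt_iff] at h8
  have h10 := main w' h8.1 h9
  have h11 := h8.2
  rw [div_lt_iff₀' h7] at h11
  linarith

/-- a relation -/
theorem rel_one {N : ℝ → ℕ} (hN : Tendsto N atTop atTop) {z t : ℂ} (h : ¬ ∀ m n, NoRel m n z t) (w : ℝ) :
    lowerDensity (dScales N z t w) = 1 := by
  push Not at h
  obtain ⟨m, n, h⟩ := h
  rw [NoRel] at h
  push Not at h
  obtain ⟨P, hP, hm, hn, h0⟩ := h
  obtain ⟨T₀, hT₀⟩ := eventually_atTop.1 (hN.eventually (eventually_ge_atTop (max m n)))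
  obtain ⟨B, hB⟩ : ∃ B : ℝ, B = max T₀ (Real.log (bh P)) := ⟨_, rfl⟩
  have hH1 : (1 : ℝ) ≤ bh P := by exact_mod_cast one_le_bh hP
  refine GT.density_one (B := max 0 (Real.log (max 1 B))) (le_max_left _ _) (fun y hy => ?_)
  have h1 : Real.log (max 1 B) ≤ y := (le_max_right _ _).trans hy
  have h2 : max 1 B ≤ Real.exp y := by
    rw [← Real.exp_log (lt_of_lt_of_le one_pos (le_max_left 1 B))]
    exact Real.exp_le_exp.2 h1
  have h3 : B ≤ Real.exp y := (le_max_right _ _).trans h2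
  have h4 : T₀ ≤ Real.exp y := by
    refine le_trans ?_ h3
    rw [hB]
    exact le_max_left _ _
  have h5 := hT₀ _ h4
  refine ⟨P, hP, fun j => (hm j).trans ((le_max_left _ _).trans h5), hn.trans ((le_max_right _ _).trans h5),
    fun j i => (coeff_le_bh P j i).trans ?_, ?_⟩
  · rw [← Real.exp_log (by linarith : (0 : ℝ) < bh P)]
    apply Real.exp_le_exp.2
    refine le_trans ?_ h3
    rw [hB]
    exact le_max_right _ _
  · rw [h0, norm_zero]
    positivity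

end Pool.Agent.H595.DL
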