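import Pool.Agent.H595.DL.DL3
import Pool.Agent.H595.GT.GT3

/-!
# Examples
-/

set_option autoImplicit false

namespace Pool.Agent.H595.DL

open Polynomial MeasureTheory Filter Topology Set Pool.Agent.H595.Dens Pool.Agent.R523.Gel Pool.Agent.H595.Alg
  Pool.Agent.H595.Gel Pool.Agent.H595.GT

/-- a quickly converging sequence of rational numbers -/
theorem exists_seq {α β : ℝ} (hab : α < β) : ∃ (t : ℝ) (s : ℕ → ℤ × ℕ) (l : ℕ → ℝ), α < t ∧ t < β ∧
    (∀ n, 1 ≤ (s n).2) ∧ (∀ n, 0 < |((s n).2 : ℝ) * t - (s n).1| ∧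
      |((s n).2 : ℝ) * t - (s n).1| ≤ Real.exp (-l n)) ∧ (∀ n, ra (s n) ^ (n + 1) ≤ l n + 1) ∧
    (∀ n, ra (s (n + 1)) / 2 ≤ l n) ∧ (∀ n : ℕ, (4 : ℝ) ^ n ≤ ra (s n)) ∧
    (∀ n, ra (s n) ^ (n + 1) ≤ ra (s (n + 1))) ∧ ∀ n, ra (s n) ≤ ra (s (n + 1)) := by
  -- the first rational number
  obtain ⟨r₀, hr₀1, hr₀2⟩ := exists_rat_btwn (show (3 * α + β) / 4 < (α + 3 * β) / 4 by linarith)
  obtain ⟨s, hs0, hs1, hs2⟩ := exists_chain (fun s : ℤ × ℕ => 1 ≤ s.2) (Rel (8 / (β - α))) (r₀.num, r₀.den)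
    r₀.pos (fun n s hs => exists_rel (8 / (β - α)) n s hs)
  choose r hr1 hr2 hr3 hr4 hr5 hr6 using hs2
  have hq : ∀ n, (1 : ℝ) ≤ (s n).2 := fun n => by exact_mod_cast hs1 n
  have hr : ∀ n, (4 : ℝ) ≤ r n := fun n => by exact_mod_cast hr1 n
  obtain ⟨T, hT⟩ : ∃ T : ℕ → ℝ, T = fun n => ((s n).1 : ℝ) / (s n).2 := ⟨_, rfl⟩
  have hTT : ∀ n, T (n + 1) - T n = 1 / ((s n).2 * r n) := by
    intro n
    have h1 := hq n
    have h2 := hr n
    rw [hT]
    simp only
    rw [hr3, hr4]
    push_cast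
    field_simp
    ring
  have habs : ∀ n, |T (n + 1) - T n| = 1 / ((s n).2 * r n) := by
    intro n
    rw [hTT, abs_of_nonneg]
    positivity
  obtain ⟨t, ht⟩ := exists_limit (T := T) (fun n => by
    rw [habs]
    have h1 := hq n
    have h2 := hr n
    positivity) (fun n => by
    rw [show n + 2 = n + 1 + 1 from rfl, habs, habs, hr4]
    have h1 := hq n
    have h2 := hr n
    have h3 := hr (n + 1)
    push_cast
    rw [div_div]
    apply one_div_le_one_div_of_le (by positivity)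
    have h4 : 0 < ((s n).2 : ℝ) * r n := by positivity
    nlinarith)
  have hlin : ∀ n, |((s n).2 : ℝ) * t - (s n).1| ≤ Real.exp (-(Real.log (r n) - 1)) := by
    intro n
    obtain ⟨-, h1⟩ := ht n
    rw [habs] at h1
    have h2 := hq n
    have h3 := hr n
    have e1 : ((s n).2 : ℝ) * t - (s n).1 = (s n).2 * (t - T n) := by
      rw [hT]
      field_simp
    have e2 : Real.exp (-(Real.log (r n) - 1)) = Real.exp 1 / r n := by
      rw [show -(Real.log (r n) - 1) = 1 - Real.log (r n) by ring, Real.exp_sub, Real.exp_log (by linarith)]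
    rw [e1, e2, abs_mul, abs_of_pos (show (0 : ℝ) < (s n).2 by linarith)]
    calc ((s n).2 : ℝ) * |t - T n| ≤ (s n).2 * (4 / 3 * (1 / ((s n).2 * r n))) := by gcongr
      _ = (4 / 3) / r n := by field_simp
      _ ≤ Real.exp 1 / r n := by
          gcongr
          have := Real.add_one_le_exp (1 : ℝ)
          linarith
  -- the sizes
  obtain ⟨a, ha⟩ : ∃ a : ℕ → ℝ, a = fun n => ra (s n) := ⟨_, rfl⟩
  have ha1 : ∀ n, 1 ≤ a n := fun n => by rw [ha]; exact one_le_ra (hs1 n)
  have hrel : ∀ n, Rel (8 / (β - α)) n (s n) (s (n + 1)) := fun n =>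
    ⟨r n, hr1 n, hr2 n, hr3 n, hr4 n, hr5 n, hr6 n⟩
  have hdiv : ∀ n, ((s (n + 1)).2 : ℝ) / (s n).2 = r n := by
    intro n
    have h1 := hq n
    rw [hr4]
    push_cast
    field_simp
  have hup : ∀ n, a (n + 1) ≤ Real.log (r n) + a n + 1 := by
    intro n
    have h1 := ((hrel n).size (hs1 n)).1
    rw [hdiv] at h1
    rw [ha]
    exact h1
  have hlo : ∀ n, Real.log (r n) ≤ a (n + 1) := by
    intro n
    have h1 := ((hrel n).size (hs1 n)).2
    rw [hdiv] at h1
    rw [ha]
    exact h1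
  have hpow : ∀ n, a n ^ (n + 1) ≤ Real.log (r n) := fun n => by rw [ha]; exact hr5 n
  have h4a : ∀ n, 4 * a n ≤ Real.log (r n) := fun n => by rw [ha]; exact hr6 n
  have hgrow : ∀ n : ℕ, (4 : ℝ) ^ n ≤ a n := by
    intro n
    induction n with
    | zero => rw [pow_zero]; exact ha1 0
    | succ n ih =>
      rw [pow_succ]
      have := h4a n
      have := hlo n
      linarith
  have hna : ∀ n : ℕ, (n : ℝ) + 1 ≤ a n := by
    intro n
    refine le_trans ?_ (hgrow n)
    have h1 : n + 1 ≤ 4 ^ n := by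
      induction n with
      | zero => simp
      | succ n ih =>
        rw [pow_succ]
        omega
    exact_mod_cast h1
  refine ⟨t, s, fun n => Real.log (r n) - 1, ?_, ?_, hs1, fun n => ⟨?_, hlin n⟩, fun n => ?_, fun n => ?_, fun n => ?_,
    fun n => ?_, fun n => ?_⟩
  · obtain ⟨-, h1⟩ := ht 0
    rw [habs] at h1
    have h2 := hq 0
    have h3 := hr2 0
    have hba : 0 < β - α := by linarith
    rw [div_le_iff₀ hba] at h3
    have h4 : 1 / (((s 0).2 : ℝ) * r 0) ≤ (β - α) / 8 := by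
      have h0 := hr 0
      rw [div_le_div_iff₀ (by positivity) (by norm_num)]
      have h5 : (r 0 : ℝ) ≤ (s 0).2 * r 0 := by nlinarith
      nlinarith
    have h5 : T 0 = r₀ := by
      rw [hT]
      simp only
      rw [hs0]
      exact_mod_cast Rat.num_div_den r₀
    rw [h5] at h1
    have h6 := (abs_le.1 h1).1
    linarith
  · obtain ⟨-, h1⟩ := ht 0
    rw [habs] at h1
    have h2 := hq 0
    have h3 := hr2 0
    have hba : 0 < β - α := by linarith
    rw [div_le_iff₀ hba] at h3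
    have h4 : 1 / (((s 0).2 : ℝ) * r 0) ≤ (β - α) / 8 := by
      have h0 := hr 0
      rw [div_le_div_iff₀ (by positivity) (by norm_num)]
      have h5 : (r 0 : ℝ) ≤ (s 0).2 * r 0 := by nlinarith
      nlinarith
    have h5 : T 0 = r₀ := by
      rw [hT]
      simp only
      rw [hs0]
      exact_mod_cast Rat.num_div_den r₀
    rw [h5] at h1
    have h6 := (abs_le.1 h1).2
    linarith
  · obtain ⟨h1, -⟩ := ht n
    have h2 := hq n
    have e1 : ((s n).2 : ℝ) * t - (s n).1 = (s n).2 * (t - T n) := by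
      rw [hT]
      field_simp
    rw [e1, abs_mul, abs_of_pos (show (0 : ℝ) < (s n).2 by linarith)]
    positivity
  · have := hr5 n
    linarith
  · have h1 := ha1 n
    have h2 := h4a n
    have h3 := hup n
    have h4 : ra (s (n + 1)) = a (n + 1) := by rw [ha]
    rw [h4]
    linarith
  · have h1 := hgrow n
    rw [ha] at h1
    exact h1
  · have h1 := (hpow n).trans (hlo n)
    rw [ha] at h1
    exact h1
  · have h1 := ha1 n
    have h2 := h4a n
    have h3 := hlo n
    have h4 : a n ≤ a (n + 1) := by linarith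
    rw [ha] at h4
    exact h4

/-- the number of the construction is algebraically independent of `z` -/
theorem indep {z : ℝ} (hz : PolyM z) {t : ℝ} {s : ℕ → ℤ × ℕ} {l : ℕ → ℝ} (hs : ∀ n, 1 ≤ (s n).2)
    (h1 : ∀ n, 0 < |((s n).2 : ℝ) * t - (s n).1| ∧ |((s n).2 : ℝ) * t - (s n).1| ≤ Real.exp (-l n))
    (h2 : ∀ n, ra (s n) ^ (n + 1) ≤ l n + 1) (h3 : ∀ n : ℕ, (4 : ℝ) ^ n ≤ ra (s n)) (m n : ℕ) : NoRel m n z t := by
  by_contra hcon
  obtain ⟨N, hN⟩ : ∃ N : ℕ, N = n + 1 := ⟨_, rfl⟩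
  have hcon' : ¬ NoRel m N z t := fun h => hcon (fun P hP h1 h2 => h P hP h1 (by omega))
  obtain ⟨κ, c, hκ, hc, hMe⟩ := hz (2 * N * m)
  obtain ⟨E, c', hE, hc', h⟩ := measure_of_rel (z := z) (t := t) (show 1 ≤ N by omega) hκ hc hMe hcon'
  have key : ∀ k, Real.log c' ≤ E * ra (s k) - l k := by
    intro k
    have hq : (1 : ℝ) ≤ (s k).2 := by exact_mod_cast hs k
    have hp := abs_nonneg ((s k).1 : ℝ)
    have hH : (1 : ℝ) ≤ |((s k).1 : ℝ)| + (s k).2 := by linarith
    have hval : val z t (lin 0 (s k).1 (s k).2) = ((((s k).2 : ℝ) * t - (s k).1 : ℝ) : ℂ) := by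
      rw [val_lin, pow_zero, mul_one]
      push_cast
      ring
    have h4 := h (lin 0 (s k).1 (s k).2) (lin_ne _ _ (by exact_mod_cast hs k))
      (fun j => (lin_deg _ _ _ _).trans (by omega)) ((lin_natDegree _ _ _).trans (by omega)) (by
        rw [hval, Complex.ofReal_ne_zero]
        exact abs_pos.1 (h1 k).1) _ hH (fun j i => (lin_height _ _ _ _ _).trans (by
          rw [Int.cast_natCast, Nat.abs_cast]
          exact max_le (by linarith) (by linarith)))
    rw [hval, Complex.norm_real, Real.norm_eq_abs] at h4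
    have h5 : c' ≤ (|((s k).1 : ℝ)| + (s k).2) ^ E * Real.exp (-l k) :=
      h4.trans (mul_le_mul_of_nonneg_left (h1 k).2 (by positivity))
    have h6 := Real.log_le_log hc' h5
    rw [Real.log_mul (by positivity) (Real.exp_pos _).ne', Real.log_rpow (by linarith), Real.log_exp] at h6
    have h7 : E * Real.log (|((s k).1 : ℝ)| + (s k).2) ≤ E * ra (s k) := by
      apply mul_le_mul_of_nonneg_left _ hE
      rw [ra]
      linarith
    linarith
  obtain ⟨k, hk⟩ := exists_nat_ge (E + 2 + |Real.log c'|)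
  have h4 := key (k + 1)
  have h5 := h2 (k + 1)
  have h6 := h3 (k + 1)
  have h7 : ((k + 1 : ℕ) : ℝ) + 1 ≤ ra (s (k + 1)) := by
    refine le_trans ?_ h6
    have : k + 1 + 1 ≤ 4 ^ (k + 1) := by
      have : ∀ j : ℕ, j + 1 ≤ 4 ^ j := by
        intro j
        induction j with
        | zero => simp
        | succ j ih =>
          rw [pow_succ]
          omega
      exact this (k + 1)
    exact_mod_cast this
  push_cast at h7
  obtain ⟨x, hx⟩ : ∃ x : ℝ, x = ra (s (k + 1)) := ⟨_, rfl⟩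
  rw [← hx] at h4 h5 h7
  have hk0 : (0 : ℝ) ≤ k := Nat.cast_nonneg k
  have hx1 : 1 ≤ x := by linarith
  have h8 : x ^ 2 ≤ x ^ (k + 1 + 1) := pow_le_pow_right₀ hx1 (by omega)
  have h9 := neg_abs_le (Real.log c')
  have h10 := abs_nonneg (Real.log c')
  nlinarith

/-- the scales which belong to a rational number -/
theorem mem_dScales {N : ℝ → ℕ} {s : ℤ × ℕ} (hs : 1 ≤ s.2) {z t w y l : ℝ} (hl : 0 < l) (hN : 1 ≤ N (Real.exp y))
    (ht : |(s.2 : ℝ) * t - s.1| ≤ Real.exp (-l)) (h1 : Real.log (ra s) ≤ y)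
    (h2 : w * y ≤ Real.log l) : y ∈ dScales N z t w := by
  have ha := one_le_ra hs
  have hs' : (1 : ℝ) ≤ s.2 := by exact_mod_cast hs
  have hp := abs_nonneg (s.1 : ℝ)
  have hTa : ra s ≤ Real.exp y := by
    rw [← Real.exp_log (show 0 < ra s by linarith)]
    exact Real.exp_le_exp.2 h1
  refine ⟨lin 0 s.1 s.2, lin_ne _ _ (by exact_mod_cast hs), fun j => (lin_deg _ _ _ _).trans (by omega),
    (lin_natDegree _ _ _).trans hN, fun j i => (lin_height _ _ _ _ _).trans ?_, ?_⟩
  · rw [Int.cast_natCast, Nat.abs_cast]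
    have h3 : |(s.1 : ℝ)| + s.2 ≤ Real.exp (ra s) := by
      rw [← Real.exp_log (show 0 < |(s.1 : ℝ)| + s.2 by linarith)]
      apply Real.exp_le_exp.2
      rw [ra]
      linarith
    exact (max_le (by linarith) (by linarith)).trans (h3.trans (Real.exp_le_exp.2 hTa))
  · have hval : val z t (lin 0 s.1 s.2) = (((s.2 : ℝ) * t - s.1 : ℝ) : ℂ) := by
      rw [val_lin, pow_zero, mul_one]
      push_cast
      ring
    rw [hval, Complex.norm_real, Real.norm_eq_abs]
    refine ht.trans (Real.exp_le_exp.2 ?_)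
    rw [neg_le_neg_iff, ← Real.exp_mul, ← Real.exp_log hl]
    apply Real.exp_le_exp.2
    linarith

/-- **Examples.** -/
theorem exists_indep {z : ℝ} (hz : PolyM z) {α β : ℝ} (hab : α < β) : ∃ t : ℝ, α < t ∧ t < β ∧
    (∀ m n, NoRel m n z t) ∧ ∀ N : ℝ → ℕ, Tendsto N atTop atTop → ∀ w : ℝ, 1 ≤ w →
      1 / w ≤ lowerDensity (dScales N z t w) := by
  obtain ⟨t, s, l, h1, h2, h3, h4, h5, h6, h7, h8, h9⟩ := exists_seq hab
  refine ⟨t, h1, h2, fun m n => indep hz h3 h4 h5 h7 m n, fun N hN w hw => ?_⟩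
  obtain ⟨T₀, hT₀⟩ := eventually_atTop.1 (hN.eventually (eventually_ge_atTop 1))
  have hw0 : 0 < w := by linarith
  have ha1 : ∀ n, 1 ≤ ra (s n) := fun n => one_le_ra (h3 n)
  have hbig : 1 / w ≤ lowerDensity (dScales N z t w ∪ {y | Real.exp y < T₀}) := by
    refine dens_super (x := fun n => Real.log (ra (s n))) (L := fun n => Real.log (l n) / w) (F := 0)
      (E := Real.log 2 / w) ?_ le_rfl (div_nonneg (Real.log_nonneg (by norm_num)) hw0.le)
      (fun n => Real.log_nonneg (ha1 n)) (fun n => Real.log_le_log (by linarith [ha1 n]) (h9 n)) ?_ ?_ ?_ ?_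
    · rw [div_le_one hw0]
      exact hw
    · intro n
      have h11 := Real.log_le_log (pow_pos (by linarith [ha1 n]) _) (h8 n)
      rw [Real.log_pow] at h11
      push_cast at h11
      exact h11
    · have h11 : Tendsto (fun n : ℕ => (n : ℝ) * Real.log 4) atTop atTop :=
        tendsto_natCast_atTop_atTop.atTop_mul_const (Real.log_pos (by norm_num))
      refine tendsto_atTop_mono (fun n => ?_) h11
      rw [← Real.log_pow]
      exact Real.log_le_log (by positivity) (h7 n)
    · intro n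
      have h11 := Real.log_le_log (by linarith [ha1 (n + 1)]) (h6 n)
      rw [Real.log_div (by linarith [ha1 (n + 1)]) (by norm_num)] at h11
      have e1 : 1 / w * Real.log (ra (s (n + 1))) - 0 * Real.log (ra (s n)) - Real.log 2 / w =
          (Real.log (ra (s (n + 1))) - Real.log 2) / w := by
        field_simp
        ring
      rw [e1]
      exact div_le_div_of_nonneg_right h11 hw0.le
    · intro n y h11 h12
      by_cases h13 : Real.exp y < T₀
      · exact Or.inr h13
      · refine Or.inl (mem_dScales (h3 n) (l := l n) ?_ (hT₀ _ (not_lt.1 h13)) (h4 n).2 h11 ?_)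
        · have := h6 n
          have := ha1 (n + 1)
          linarith
        · rw [lt_div_iff₀ hw0] at h12
          linarith
  refine hbig.trans (lowerDensity_mono (B := Real.log (max 1 T₀)) ?_)
  rintro y (hy | hy) hB
  · exact hy
  · exfalso
    have h11 : max 1 T₀ ≤ Real.exp y := by
      rw [← Real.exp_log (lt_of_lt_of_le one_pos (le_max_left 1 T₀))]
      exact Real.exp_le_exp.2 hB
    exact absurd ((le_max_right 1 T₀).trans h11) (not_le.2 hy)

end Pool.Agent.H595.DL
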